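import Pool.Agent.Q266.VG.Asm
import Pool.Agent.Q186.VG.Ev
import Pool.Agent.Q217.VG.STEPBC

namespace Pool.Agent.Q266.VG

theorem hevt : S_EVT := evt uni lead
theorem hevq : S_EVQ := evq uni lead hevt
theorem stepbc : S_STEPBC :=
  Pool.Agent.Q217.VG.stepbc uni lead fil ksix lawev hevt hevq gentwo relq relt sym idb idc
theorem main : S_MAIN := mainOf stepbc

end Pool.Agent.Q266.VG
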