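import Pool.Agent.Q266.VG.Fin
import Pool.Agent.Q277.VG.UNI
import Pool.Agent.Q129.VG.FIL
import Pool.Agent.Q121.VG.KSIX
import Pool.Agent.Q181.VG.KFIVE
import Pool.Agent.Q210.VG.LAWEV
import Pool.Agent.Q210.VG.MET
import Pool.Agent.Q192.VG.EVA
import Pool.Agent.Q265.VG.LCS
import Pool.Agent.Q234.VG.GENTWO
import Pool.Agent.Q238.VG.Rel
import Pool.Agent.Q254.VG.Lone
import Pool.Agent.Q254.VG.Sym
import Pool.Agent.Q153.VG.IDA
import Pool.Agent.Q154.VG.IDB
import Pool.Agent.Q154.VG.IDC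
import Pool.Agent.Q256.VG.STEPA
import Pool.Agent.Q184.VG.MAIN
import Pool.Agent.Q184.VG.NEG

namespace Pool.Agent.Q266.VG

theorem uni : S_UNI := Pool.Agent.Q277.VG.uni
theorem lead : S_LEAD := Pool.Agent.Q277.VG.lead uni
theorem fil : S_FIL := Pool.Agent.Q129.VG.fil uni lead
theorem ksix : S_KSIX := Pool.Agent.Q121.VG.ksix uni lead fil
theorem lcs : S_LCS := Pool.Agent.Q265.VG.lcs
theorem gen : S_GEN := Pool.Agent.Q265.VG.gen
theorem kfive : S_KFIVE := Pool.Agent.Q181.VG.kfive uni lead fil lcs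
theorem lawev : S_LAWEV := Pool.Agent.Q210.VG.lawev uni ksix
theorem met : S_MET := Pool.Agent.Q210.VG.met
theorem eva : S_EVA := Pool.Agent.Q192.VG.eva uni lead
theorem gentwo : S_GENTWO := Pool.Agent.Q234.VG.gentwo gen lcs
theorem mrel : S_MREL := Pool.Agent.Q238.VG.mrel
theorem rela : S_RELA := Pool.Agent.Q238.VG.rela mrel
theorem relq : S_RELQ := Pool.Agent.Q238.VG.relq
theorem relt : S_RELT := Pool.Agent.Q238.VG.relt lcs mrel
theorem lone : S_LONE := Pool.Agent.Q254.VG.lone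
theorem sym : S_SYM := Pool.Agent.Q254.VG.sym
theorem ida : S_IDA := Pool.Agent.Q153.VG.ida
theorem idb : S_IDB := Pool.Agent.Q154.VG.B.idb
theorem idc : S_IDC := Pool.Agent.Q154.VG.idc
theorem stepa : S_STEPA := Pool.Agent.Q256.VG.stepa uni lead fil eva gen rela sym ida
theorem mainOf (h : S_STEPBC) : S_MAIN := Pool.Agent.Q184.VG.main uni ksix lawev met lone stepa h
theorem neg : S_NEG := Pool.Agent.Q184.VG.neg uni lead kfive lcs

end Pool.Agent.Q266.VG
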