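import Pool.Agent.Q266.VG.Stm

/-! # Project VG: final assembly from `S_MAIN` and `S_NEG` -/

namespace Pool.Agent.Q266.VG

open scoped commutatorElement

theorem verbal_normal (W : Subgroup F) (G : Type) [Group G] : (verbal W G).Normal := by
  constructor
  intro n hn g
  induction hn using Subgroup.closure_induction with
  | mem x hx =>
    obtain ⟨v, hv, φ, rfl⟩ := hx
    refine Subgroup.subset_closure ⟨v, hv, (MulAut.conj g).toMonoidHom.comp φ, ?_⟩
    simp
  | one => simp
  | mul x y _ _ hx hy =>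
    have : g * (x * y) * g⁻¹ = (g * x * g⁻¹) * (g * y * g⁻¹) := by group
    rw [this]; exact mul_mem hx hy
  | inv x _ hx =>
    have : g * x⁻¹ * g⁻¹ = (g * x * g⁻¹)⁻¹ := by group
    rw [this]; exact inv_mem hx

instance (W : Subgroup F) (G : Type) [Group G] : (verbal W G).Normal := verbal_normal W G

/-- The laws of a group, a subgroup of the free group of countable rank. -/
def laws (G : Type) [Group G] : Subgroup F := ⨅ φ : F →* G, φ.ker

theorem mem_laws {G : Type} [Group G] {w : F} : w ∈ laws G ↔ ∀ φ : F →* G, φ w = 1 := by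
  simp [laws, Subgroup.mem_iInf, MonoidHom.mem_ker]

theorem mem_laws_quot (k : ℕ) (W : Subgroup F) (w : F) :
    w ∈ laws (FreeGroup (Fin k) ⧸ verbal W (FreeGroup (Fin k))) ↔
      ∀ φ : F →* FreeGroup (Fin k), φ w ∈ verbal W (FreeGroup (Fin k)) := by
  rw [mem_laws]
  constructor
  · intro h φ
    have := h ((QuotientGroup.mk' (verbal W (FreeGroup (Fin k)))).comp φ)
    rw [MonoidHom.comp_apply] at this
    exact (QuotientGroup.eq_one_iff _).1 this
  · intro h ψ
    choose f hf using fun n : ℕ =>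
      QuotientGroup.mk'_surjective (verbal W (FreeGroup (Fin k))) (ψ (FreeGroup.of n))
    have hψ : ψ = (QuotientGroup.mk' (verbal W (FreeGroup (Fin k)))).comp (FreeGroup.lift f) := by
      ext n
      rw [MonoidHom.comp_apply, FreeGroup.lift_apply_of]
      exact (hf n).symm
    rw [hψ, MonoidHom.comp_apply]
    exact (QuotientGroup.eq_one_iff _).2 (h _)

theorem laws_quot_eq (k : ℕ) (W : Subgroup F) :
    laws (FreeGroup (Fin k) ⧸ verbal W (FreeGroup (Fin k))) = W ↔
      ∀ w : F, (∀ φ : F →* FreeGroup (Fin k), φ w ∈ verbal W (FreeGroup (Fin k))) → w ∈ W := by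
  constructor
  · intro h w hw
    rw [← h]
    exact (mem_laws_quot k W w).2 hw
  · intro h
    apply le_antisymm
    · intro w hw
      exact h w ((mem_laws_quot k W w).1 hw)
    · intro w hw
      exact (mem_laws_quot k W w).2 fun φ => Subgroup.subset_closure ⟨w, hw, φ, rfl⟩

theorem U_invariant (φ : F →* F) : U.map φ ≤ U := by
  unfold U
  rw [Subgroup.map_sup, Subgroup.map_sup]
  refine sup_le_sup ?_ (sup_le_sup ?_ ?_)
  · rw [MonoidHom.map_closure, Subgroup.closure_le]
    rintro _ ⟨_, ⟨x, rfl⟩, rfl⟩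
    refine Subgroup.subset_closure ⟨φ x, ?_⟩
    simp
  · exact map_derivedSeries_le_derivedSeries φ 2
  · rw [Subgroup.map_lowerCentralSeries]
    exact Subgroup.lowerCentralSeries_mono 4 le_top

theorem final (hM : S_MAIN) (hN : S_NEG) :
    (∀ φ : F →* F, U.map φ ≤ U) ∧ gam F 4 ≤ U ∧
    laws (FreeGroup (Fin 2) ⧸ verbal ⁅U, (⊤ : Subgroup F)⁆ (FreeGroup (Fin 2))) =
      ⁅U, (⊤ : Subgroup F)⁆ ∧
    laws (FreeGroup (Fin 2) ⧸
      verbal (gam F 4 ⊔ ⁅U, (⊤ : Subgroup F)⁆) (FreeGroup (Fin 2))) ≠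
      gam F 4 ⊔ ⁅U, (⊤ : Subgroup F)⁆ := by
  refine ⟨U_invariant, ?_, ?_, ?_⟩
  · unfold U
    exact le_sup_of_le_right le_sup_right
  · exact (laws_quot_eq 2 _).2 hM
  · intro h
    obtain ⟨w, hw, hw'⟩ := hN
    exact hw' ((laws_quot_eq 2 _).1 h w hw)

end Pool.Agent.Q266.VG
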