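import Mathlib

/-!
# Project VG (problem MP_215da1_al): statements

Aim: a negative answer with `c = 4`, `k = 2`.  `U(F) = F^7 F'' γ_5(F)`, `V = [U(F), F]`.  The variety
with laws `V` is generated by its free group of rank 2, but its part of class `4` (laws `γ_5 V`) is
not, since every 2-generator group of class 4 is metabelian.

`gam G n` is `γ_{n+1}(G)`; Mathlib's commutator is `⁅g, h⁆ = g * h * g⁻¹ * h⁻¹`.

Every `S_XXX` below is a job: prove `theorem xxx : S_XXX` (or `S_YYY → S_XXX` where indicated).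
-/

namespace Pool.Agent.Q266.VG

open scoped commutatorElement

/-- the free group of countably infinite rank -/
abbrev F := FreeGroup ℕ

/-- the free group of rank two -/
abbrev F2 := FreeGroup (Fin 2)

/-- `gam G n` is the term `γ_{n+1}(G)` of the lower central series. -/
abbrev gam (G : Type) [Group G] (n : ℕ) : Subgroup G := (⊤ : Subgroup G).lowerCentralSeries n

/-- the second derived group -/
abbrev D2 (G : Type) [Group G] : Subgroup G := derivedSeries G 2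

/-- `U(F) = F^7 F'' γ_5(F)` -/
def U : Subgroup F := Subgroup.closure (Set.range fun x : F => x ^ 7) ⊔ (D2 F ⊔ gam F 4)

/-- `V = [U(F), F]` -/
def V : Subgroup F := ⁅U, (⊤ : Subgroup F)⁆

/-- the verbal subgroup of `G` given by the words in `W` -/
def verbal (W : Subgroup F) (G : Type) [Group G] : Subgroup G :=
  Subgroup.closure {g | ∃ v ∈ W, ∃ φ : F →* G, φ v = g}

/-- `w` is a law of the relatively free group of rank 2 of the variety with laws `V` -/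
def Law2 (w : F) : Prop := ∀ φ : F →* F2, φ w ∈ verbal V F2

/-! ## Matrices -/

/-- square matrices over the field with 7 elements -/
abbrev Mat (d : ℕ) := Matrix (Fin d) (Fin d) (ZMod 7)

/-- supported on the `k`-th diagonal above the main diagonal and further above -/
def IsN (d k : ℕ) (X : Mat d) : Prop := ∀ i j : Fin d, (j : ℕ) < i + k → X i j = 0

/-- first pattern (word b a a a a): `b = E_01`, `a = E_12 + E_23 + E_34 + E_45` -/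
def aA : Mat 6 := fun i j => if 1 ≤ (i : ℕ) ∧ (j : ℕ) = i + 1 then 1 else 0
/-- first pattern -/
def bA : Mat 6 := fun i j => if (i : ℕ) = 0 ∧ (j : ℕ) = 1 then 1 else 0

/-- second pattern (word a a b b a): `a = E_01 + E_12 + E_45`, `b = E_23 + E_34` -/
def aC : Mat 6 := fun i j =>
  if (j : ℕ) = i + 1 ∧ ((i : ℕ) = 0 ∨ (i : ℕ) = 1 ∨ (i : ℕ) = 4) then 1 else 0
/-- second pattern -/
def bC : Mat 6 := fun i j => if (j : ℕ) = i + 1 ∧ ((i : ℕ) = 2 ∨ (i : ℕ) = 3) then 1 else 0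

theorem IsN.mono {d k l : ℕ} {X : Mat d} (h : IsN d k X) (hl : l ≤ k) : IsN d l X :=
  fun i j hij => h i j (by omega)

theorem IsN.zero (d k : ℕ) : IsN d k (0 : Mat d) := fun _ _ _ => rfl

theorem IsN.add {d k : ℕ} {X Y : Mat d} (h : IsN d k X) (h' : IsN d k Y) : IsN d k (X + Y) :=
  fun i j hij => by rw [Matrix.add_apply, h i j hij, h' i j hij, add_zero]

theorem IsN.neg {d k : ℕ} {X : Mat d} (h : IsN d k X) : IsN d k (-X) :=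
  fun i j hij => by rw [Matrix.neg_apply, h i j hij, neg_zero]

theorem IsN.sub {d k : ℕ} {X Y : Mat d} (h : IsN d k X) (h' : IsN d k Y) : IsN d k (X - Y) := by
  rw [sub_eq_add_neg]; exact h.add h'.neg

theorem IsN.smul {d k : ℕ} {X : Mat d} (t : ZMod 7) (h : IsN d k X) : IsN d k (t • X) :=
  fun i j hij => by rw [Matrix.smul_apply, h i j hij, smul_zero]

theorem IsN.mul {d r s : ℕ} {X Y : Mat d} (h : IsN d r X) (h' : IsN d s Y) :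
    IsN d (r + s) (X * Y) := by
  intro i j hij
  rw [Matrix.mul_apply]
  refine Finset.sum_eq_zero fun k _ => ?_
  by_cases hk : (k : ℕ) < i + r
  · rw [h i k hk, zero_mul]
  · rw [h' k j (by omega), mul_zero]

theorem IsN.eq_zero {d k : ℕ} {X : Mat d} (h : IsN d k X) (hk : d ≤ k) : X = 0 := by
  ext i j
  exact h i j (by have := j.isLt; omega)

theorem isN_aA : IsN 6 1 aA := fun i j h => by
  unfold aA; rw [if_neg]; omega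
theorem isN_bA : IsN 6 1 bA := fun i j h => by
  unfold bA; rw [if_neg]; omega
theorem isN_aC : IsN 6 1 aC := fun i j h => by
  unfold aC; rw [if_neg]; omega
theorem isN_bC : IsN 6 1 bC := fun i j h => by
  unfold bC; rw [if_neg]; omega

/-- `w` is a law in all images of `F` in the metabelian matrix group of the first pattern -/
def MetLaw (w : F) : Prop := ∀ A B : (Mat 6)ˣ, (A : Mat 6) = 1 + aA → (B : Mat 6) = 1 + bA →
  ∀ φ : F →* F2, FreeGroup.lift ![A, B] (φ w) = 1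

/-! ## Commutator words -/

/-- left normed commutator `[x_y, x_z, x_{Z_1}, ..., x_{Z_n}]` -/
def E {G : Type} [Group G] (x : ℕ → G) (y z : ℕ) (Z : List ℕ) : G :=
  Z.foldl (fun u k => ⁅u, x k⁆) ⁅x y, x z⁆

/-- `[[x_a, x_b], [x_c, x_d]]` -/
def Q {G : Type} [Group G] (x : ℕ → G) (a b c d : ℕ) : G := ⁅⁅x a, x b⁆, ⁅x c, x d⁆⁆

/-- `[[x_a, x_b], [x_c, x_d, x_e]]` -/
def T {G : Type} [Group G] (x : ℕ → G) (a b c d e : ℕ) : G := ⁅⁅x a, x b⁆, ⁅⁅x c, x d⁆, x e⁆⁆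

/-! ## Jobs on matrices -/

/-- JOB UNI. Two basic facts. (1) `1 + X` is invertible for `X ∈ N^1` (X is nilpotent:
`IsN.mul` gives `X^k ∈ N^k`, so `X^d = 0`; `IsNilpotent.isUnit_one_add`).  (2) If `ρ (of k) - 1 ∈ N^1`
for every free generator then `ρ w - 1 ∈ N^1` for every word: induction `FreeGroup.induction_on`;
`gh - 1 = (g-1)(h-1) + (g-1) + (h-1)`; `g⁻¹ - 1 = -g⁻¹ (g-1)` is not enough, so use
`g⁻¹ = Σ_{k<d} (-(g-1))^k` (check by multiplying with `g`, `(g-1)^d = 0`), or cofactor/determinant free: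
from `g⁻¹ * g = 1` prove row by row.  (3) The same with linear parts: if every `ρ (of k)` is
`1 + n a + m b + N^2`, so is every `ρ w` (for the inverse: `g⁻¹ = 1 - X + X^2 - ...`, so
`g⁻¹ - 1 + X ∈ N^2`). -/
def S_UNI : Prop :=
  (∀ (d : ℕ) (X : Mat d), IsN d 1 X → ∃ g : (Mat d)ˣ, (g : Mat d) = 1 + X) ∧
  (∀ (d : ℕ) (g : (Mat d)ˣ) (k : ℕ), 1 ≤ k → IsN d k ((g : Mat d) - 1) →
    IsN d k (((g⁻¹ : (Mat d)ˣ) : Mat d) - 1)) ∧
  (∀ (α : Type) (d : ℕ) (ρ : FreeGroup α →* (Mat d)ˣ),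
    (∀ k, IsN d 1 ((ρ (FreeGroup.of k) : Mat d) - 1)) → ∀ w, IsN d 1 ((ρ w : Mat d) - 1)) ∧
  (∀ (α : Type) (d : ℕ) (a b : Mat d) (ρ : FreeGroup α →* (Mat d)ˣ), IsN d 1 a → IsN d 1 b →
    (∀ k, ∃ n m : ZMod 7, IsN d 2 ((ρ (FreeGroup.of k) : Mat d) - 1 - n • a - m • b)) →
    ∀ w, ∃ n m : ZMod 7, IsN d 2 ((ρ w : Mat d) - 1 - n • a - m • b))

/-- JOB LEAD. Leading term of a commutator: for units `g = 1 + X`, `h = 1 + Y`,
`⁅g,h⁆ - 1 = (gh - hg) g⁻¹ h⁻¹ = (XY - YX) g⁻¹ h⁻¹` and `g⁻¹ h⁻¹ - 1 ∈ N^1` (second part of `S_UNI`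
for `k = 1`). -/
def S_LEAD : Prop := ∀ (d r s : ℕ) (g h : (Mat d)ˣ), 1 ≤ r → 1 ≤ s →
  IsN d r ((g : Mat d) - 1) → IsN d s ((h : Mat d) - 1) →
  IsN d (r + s + 1) (((⁅g, h⁆ : (Mat d)ˣ) : Mat d) - 1 -
    (((g : Mat d) - 1) * ((h : Mat d) - 1) - ((h : Mat d) - 1) * ((g : Mat d) - 1)))

/-- JOB FIL (from `S_UNI`, `S_LEAD`). The lower central series goes into the filtration.
Induction on `n`; `gam G (n+1)` is the closure of the commutators `⁅p, q⁆` with `p ∈ gam G n`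
(`Subgroup.mem_lowerCentralSeries_succ_iff`); by `S_LEAD` with `r = n + 1`, `s = 1` they are in
`1 + N^(n+2)`; closed under products and inverses (`S_UNI`). -/
def S_FIL : Prop := ∀ (G : Type) [Group G] (d : ℕ) (ρ : G →* (Mat d)ˣ),
  (∀ g, IsN d 1 ((ρ g : Mat d) - 1)) → ∀ n, ∀ w ∈ gam G n, IsN d (n + 1) ((ρ w : Mat d) - 1)

/-- JOB KSIX (from `S_UNI`, `S_LEAD`, `S_FIL`). Such a `ρ` kills `V = ⁅U, ⊤⁆`. It is enough that
`ρ u` commutes with every `ρ f` for `u` in the generating sets of `U`.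
(i) `u = x^7`: `(1+X)^7 = 1 + X^7 = 1` (`add_pow_char_of_commute`, char 7), `X^7 ∈ N^7`, so `= 0`.
(ii) `u ∈ gam F 4`: `ρ u ∈ 1 + N^5`, and `1 + N^5` commutes with `1 + N^1` as `N^6 = 0`.
(iii) `u ∈ D2 F = ⁅F', F'⁆`: for `g, h ∈ F`, `S_LEAD` (r = s = 1) gives
`ρ⁅g,h⁆ = 1 + t (ab - ba) + N^3`; hence (closure) for every `w ∈ F'` there is `t` with
`ρ w - 1 - t • (a*b - b*a) ∈ N^3`. For two such elements, `S_LEAD` with `r = s = 2` gives that their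
commutator is in `1 + N^5` (`[t c + X', s c + Y'] ∈ N^5` since `[c,c] = 0`). So `ρ (D2 F) ⊂ 1 + N^5`. -/
def S_KSIX : Prop := ∀ (a b : Mat 6), IsN 6 1 a → IsN 6 1 b → ∀ ρ : F →* (Mat 6)ˣ,
  (∀ w, ∃ n m : ZMod 7, IsN 6 2 ((ρ w : Mat 6) - 1 - n • a - m • b)) →
  (∀ v ∈ V, ρ v = 1) ∧ (∀ w ∈ D2 F, IsN 6 5 ((ρ w : Mat 6) - 1))

/-- JOB KFIVE (from `S_UNI`, `S_LEAD`, `S_FIL`). For 5 x 5 matrices, `ρ` kills `γ_5` and `V`.
`gam F 4` goes to `1 + N^5 = 1`. `x^7` goes to 1. `D2 F ≤ gam F 3` goes to `1 + N^4`, which commutes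
with `1 + N^1` (`N^5 = 0`). (`D2 F ≤ gam F 3`: `S_LCS` with m = n = 1, `derivedSeries F 1 = gam F 1`.) -/
def S_KFIVE : Prop := ∀ ρ : F →* (Mat 5)ˣ, (∀ w, IsN 5 1 ((ρ w : Mat 5) - 1)) →
  ∀ v ∈ gam F 4 ⊔ V, ρ v = 1

/-- JOB LAWEV (from `S_UNI`, `S_KSIX`). A law of the free group of rank 2 of the variety is 1 in the
matrix groups. Put `θ = FreeGroup.lift ![A, B]`. By `S_UNI` (4) every `θ y` is `1 + n a + m b + N^2`,
so `S_KSIX` applies to `θ.comp φ'` for every `φ' : F →* F2`: `θ (φ' v) = 1` for `v ∈ V`, hence `θ = 1`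
on `verbal V F2`. -/
def S_LAWEV : Prop := ∀ (a b : Mat 6), IsN 6 1 a → IsN 6 1 b → ∀ A B : (Mat 6)ˣ,
  (A : Mat 6) = 1 + a → (B : Mat 6) = 1 + b → ∀ w, Law2 w → ∀ φ : F →* F2,
  FreeGroup.lift ![A, B] (φ w) = 1

/-- JOB MET. The matrix group of the first pattern is metabelian.  For every `y : F2` the matrix
`θ y` has first column `e_0` and its lower right block (rows and columns `1..5`) is that of
`(1 + aA)^k` for an integer `k` (a power of the unit `A`): rows `i ≥ 1` of `θ y` equal rows `i ≥ 1` of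
`A^k`, because `bA` has zero rows `i ≥ 1` and entries `(i, 0)`, `i ≥ 1`, are 0.  So for a commutator
rows `i ≥ 1` are those of the identity: elements of `derivedSeries F2 1` go to `1 + X` with `X`
supported on the first row outside the diagonal entry, and these commute (`X * X' = 0`). Hence the second derived
group goes to 1. -/
def S_MET : Prop := ∀ A B : (Mat 6)ˣ, (A : Mat 6) = 1 + aA → (B : Mat 6) = 1 + bA →
  ∀ y ∈ D2 F2, FreeGroup.lift ![A, B] y = 1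

/-- JOB EVA (from `S_UNI`, `S_LEAD`). Evaluation of left normed commutators, first pattern. Induction
on `Z` from the right (`List.reverseRecOn`, `E x y z (Z ++ [k]) = ⁅E x y z Z, x k⁆`); prove more: the
matrix `E x y z Z - 1 - s • E_{0, n+2}` is in `N^(n+3)`, `n = Z.length`,
`s = (m y * n z - n y * m z) * Π n`.  Start: `[u,v] = (n_y m_z - m_y n_z)(ab - ba)`,
`aA * bA = 0`, `bA * aA = E_{02}`. Step: `E_{0,l} * aA = E_{0,l+1}` for `1 ≤ l ≤ 4`, `aA * E_{0,l} = 0`,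
`bA * E_{0,l} = 0`, `E_{0,l} * bA = 0` for `l ≥ 1`. -/
def S_EVA : Prop := ∀ (x : ℕ → (Mat 6)ˣ) (n m : ℕ → ZMod 7),
  (∀ k, IsN 6 2 ((x k : Mat 6) - 1 - n k • aA - m k • bA)) →
  ∀ (y z : ℕ) (Z : List ℕ), Z.length ≤ 3 →
    IsN 6 (Z.length + 2) (((E x y z Z : (Mat 6)ˣ) : Mat 6) - 1) ∧
    ∀ j : Fin 6, (j : ℕ) = Z.length + 2 →
      ((E x y z Z : (Mat 6)ˣ) : Mat 6) 0 j = (m y * n z - n y * m z) * (Z.map n).prod

/-- JOB EVT (from `S_UNI`, `S_LEAD`). Evaluation of `T`, second pattern. Put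
`c = aC * bC - bC * aC = E_13 - E_35`... (compute by `decide`); `[g1,g2] = 1 + D12 c + N^3`,
`[[g3,g4],g5] = 1 + D34 [c, n5 a + m5 b] + N^4`, and `[[g1,g2],[g3,g4,g5]] = 1 + D12 D34 [c,[c, n5 a + m5 b]] + N^6`,
where `[c,[c,a]]` has `(0,5)` entry `-1`, `[c,[c,b]] = 0`. -/
def S_EVT : Prop := ∀ (g : Fin 5 → (Mat 6)ˣ) (n m : Fin 5 → ZMod 7),
  (∀ k, IsN 6 2 ((g k : Mat 6) - 1 - n k • aC - m k • bC)) →
  IsN 6 5 (((⁅⁅g 0, g 1⁆, ⁅⁅g 2, g 3⁆, g 4⁆⁆ : (Mat 6)ˣ) : Mat 6) - 1) ∧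
  ((⁅⁅g 0, g 1⁆, ⁅⁅g 2, g 3⁆, g 4⁆⁆ : (Mat 6)ˣ) : Mat 6) 0 5 =
    -((n 0 * m 1 - m 0 * n 1) * (n 2 * m 3 - m 2 * n 3) * n 4)

/-- JOB EVQ (from `S_UNI`, `S_LEAD`, `S_EVT`). Change of `[[g0,g1],[g2,g3]]` when `g_k` is replaced by
`g_k C^{r_k}`, `C = ⁅A, B⁆`, second pattern. All matrices are in `1 + N^1`; `[1+N^i, 1+N^j] ⊂ 1+N^(i+j)`.
Modulo `1 + N^4`: `⁅g0 C^{r0}, g1 C^{r1}⁆ ≡ ⁅g0,g1⁆ ⁅C,g1⁆^{r0} ⁅g0,C⁆^{r1}`; commutators of elements of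
`P = {1 + t c + N^3}` lie in `1 + N^5`, which is central, so `⁅·,·⁆` is bilinear on `P`, and
`[1+N^4, 1+N^2] = 1`. So the quotient of the two values is
`⁅⁅C,g1⁆,⁅g2,g3⁆⁆^{r0} ⁅⁅g0,C⁆,⁅g2,g3⁆⁆^{r1} ⁅⁅g0,g1⁆,⁅C,g3⁆⁆^{r2} ⁅⁅g0,g1⁆,⁅g2,C⁆⁆^{r3}` and each factor is
known from `S_EVT` (with `C = ⁅A,B⁆`, `D_AB = 1`). Alternative: compute the `(0,5)` entry directly with
`S_LEAD`-type expansions: if `⁅g0,g1⁆ = 1 + D01 c + κ01 + N^4`, `κ01` on the third diagonal, then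
`⁅⁅g0,g1⁆,⁅g2,g3⁆⁆ = 1 + D01 [c, κ23] - D23 [c, κ01]`, and the third diagonal of `⁅g0 C^{r0}, g1 C^{r1}⁆`
exceeds that of `⁅g0,g1⁆` by `r0 [c,u1] - r1 [c,u0]`, `u_k = n_k a + m_k b`. -/
def S_EVQ : Prop := ∀ (A B : (Mat 6)ˣ), (A : Mat 6) = 1 + aC → (B : Mat 6) = 1 + bC →
  ∀ (g : Fin 4 → (Mat 6)ˣ) (n m : Fin 4 → ZMod 7) (r : Fin 4 → ℕ),
  (∀ k, IsN 6 2 ((g k : Mat 6) - 1 - n k • aC - m k • bC)) →
  ((⁅⁅g 0 * ⁅A, B⁆ ^ r 0, g 1 * ⁅A, B⁆ ^ r 1⁆, ⁅g 2 * ⁅A, B⁆ ^ r 2, g 3 * ⁅A, B⁆ ^ r 3⁆⁆ :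
      (Mat 6)ˣ) : Mat 6) 0 5 -
    ((⁅⁅g 0, g 1⁆, ⁅g 2, g 3⁆⁆ : (Mat 6)ˣ) : Mat 6) 0 5 =
    (n 2 * m 3 - m 2 * n 3) * (r 0 * n 1 - r 1 * n 0) -
      (n 0 * m 1 - m 0 * n 1) * (r 2 * n 3 - r 3 * n 2)

/-! ## Jobs on groups -/

/-- JOB LCS. `[γ_{m+1}, γ_{n+1}] ≤ γ_{m+n+2}` (induction on `n`, three subgroups lemma
`Subgroup.commutator_commutator_eq_bot_of_rotate` in the quotient or its variants, or element-wise). -/
def S_LCS : Prop := ∀ (G : Type) [Group G] (m n : ℕ), ⁅gam G m, gam G n⁆ ≤ gam G (m + n + 1)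

/-- JOB GEN. `γ_{n+2}(F)` is generated by the left normed commutators of weight `n+2` in the free
generators modulo `γ_{n+3}(F)`. Induction on `n`. Let `K` be the right side. For `p ∈ gam F n`,
`q ∈ F`: modulo `gam F (n+2)` the commutator is bilinear: `⁅p p', q⁆ = p ⁅p', q⁆ p⁻¹ ⁅p, q⁆`,
`⁅p, q q'⁆ = ⁅p, q⁆ q ⁅p, q'⁆ q⁻¹`, and conjugation of an element of `gam F (n+1)` changes it by
`gam F (n+2)`; `F` is generated by the `of k`, `gam F n` (n ≥ 1) by the commutators of the previous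
step and `gam F (n+1)`, with `⁅gam F (n+1), F⁆ = gam F (n+2)`. -/
def S_GEN : Prop := ∀ n : ℕ, gam F (n + 1) ≤
  Subgroup.closure {g | ∃ (y z : ℕ) (Z : List ℕ), Z.length = n ∧ g = E FreeGroup.of y z Z} ⊔
    gam F (n + 2)

/-- JOB GENTWO (from `S_GEN`, `S_LCS`). Generators of `F''` modulo `[F'', F]` and `γ_6 ∩ F''`. For
fixed `h ∈ F'` the map `g ↦ ⁅g, h⁆` is multiplicative on `F'` modulo `⁅F'', F⁆`
(`⁅g g', h⁆ = g ⁅g',h⁆ g⁻¹ ⁅g,h⁆`), likewise in `h`. By `S_GEN 0` and `S_GEN 1`, `F' = gam F 1` is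
generated by the `⁅x_y,x_z⁆`, the `⁅⁅x_y,x_z⁆,x_k⁆` and `gam F 3`. `⁅gam F 3, gam F 1⁆` and
`⁅gam F 2, gam F 2⁆` are in `gam F 5` by `S_LCS`. -/
def S_GENTWO : Prop := D2 F ≤
  Subgroup.closure ({g | ∃ a b c d : ℕ, g = Q FreeGroup.of a b c d} ∪
    {g | ∃ a b c d e : ℕ, g = T FreeGroup.of a b c d e}) ⊔
  (⁅D2 F, (⊤ : Subgroup F)⁆ ⊔ (gam F 5 ⊓ D2 F))

/-- JOB MREL. Identities of metabelian groups. Write `G'` additively, `y·u = y u y⁻¹`; then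
`⁅u, y⁆ = u - y·u`, and `G` acts on `G'` through `G/G'` (commutative), which gives the first two.
Jacobi: compute `⁅b a, c⁆` twice: `= b ⁅a,c⁆ b⁻¹ ⁅b,c⁆`, and with `b a = ⁅b,a⁆ a b`,
`= ⁅⁅b,a⁆,c⁆ (a ⁅b,c⁆ a⁻¹) ⁅a,c⁆` (up to order in `G'`). So
`b·⁅a,c⁆ + ⁅b,c⁆ = ⁅⁅b,a⁆,c⁆ + a·⁅b,c⁆ + ⁅a,c⁆`, i.e. the claim, using `⁅c,a⁆ = -⁅a,c⁆`. -/
def S_MREL : Prop := ∀ (G : Type) [Group G],
  (∀ g ∈ gam G 1, ∀ h ∈ gam G 1, g * h = h * g) →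
  (∀ u ∈ gam G 1, ∀ y z : G, ⁅⁅u, y⁆, z⁆ = ⁅⁅u, z⁆, y⁆) ∧
  (∀ u ∈ gam G 1, ∀ v ∈ gam G 1, ∀ y : G, ⁅u * v, y⁆ = ⁅u, y⁆ * ⁅v, y⁆) ∧
  (∀ a b c : G, ⁅⁅a, b⁆, c⁆ * ⁅⁅b, c⁆, a⁆ * ⁅⁅c, a⁆, b⁆ = 1)

/-- JOB RELA (from `S_MREL`). Consequences for `E` in a metabelian group. (1) `foldl` over a
permutation: `List.Perm` induction with `S_MREL` (1) (all intermediate values are in `G'`).
(2), (3): `u ↦ foldl ... u` is multiplicative on `G'`. (4) If `Z = Z' ++ [k]`: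
`⁅u, x k⁆^7 = ⁅u^7, x k⁆ = 1` (u ∈ G', 7th powers central); if `Z = []`, `gam G 2 = ⊥`:
`⁅g, h⁆` is central so `⁅g,h⁆^7 = ⁅g^7,h⁆ = 1`. -/
def S_RELA : Prop := ∀ (G : Type) [Group G] (x : ℕ → G),
  (∀ g ∈ gam G 1, ∀ h ∈ gam G 1, g * h = h * g) →
  (∀ (y z : ℕ) (Z Z' : List ℕ), Z.Perm Z' → E x y z Z = E x y z Z') ∧
  (∀ (y z : ℕ) (Z : List ℕ), E x z y Z = (E x y z Z)⁻¹) ∧
  (∀ (a b c : ℕ) (Z : List ℕ),
    E x a b (c :: Z) * E x b c (a :: Z) * E x c a (b :: Z) = 1) ∧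
  (∀ (y z : ℕ) (Z : List ℕ), (∀ g : G, g ^ 7 ∈ Subgroup.center G) → gam G (Z.length + 2) = ⊥ →
    (E x y z Z) ^ 7 = 1)

/-- JOB RELQ. In a group with `G'' ≤ Z(G)` the commutator is bilinear on `G'`. -/
def S_RELQ : Prop := ∀ (G : Type) [Group G] (x : ℕ → G), D2 G ≤ Subgroup.center G →
  (∀ g : G, g ^ 7 ∈ Subgroup.center G) → ∀ a b c d : ℕ,
  Q x b a c d = (Q x a b c d)⁻¹ ∧ Q x a b d c = (Q x a b c d)⁻¹ ∧
  Q x c d a b = (Q x a b c d)⁻¹ ∧ (Q x a b c d) ^ 7 = 1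

/-- JOB RELT (from `S_LCS`, `S_MREL`). Relations of `T` in a group of class at most 5 with `G''`
central. Bilinear on `G'` as in RELQ, and `⁅g, h⁆ = 1` for `g ∈ gam G 1`, `h ∈ gam G 3`.
Swap: put `g = ⁅x a, x b⁆`, `h = ⁅x c, x d⁆`, `e = x e`. `⁅g,h⁆` is central, so conjugating by `e`:
`⁅⁅e,g⁆ g, ⁅e,h⁆ h⁆ = ⁅g,h⁆`; expand bilinearly, `⁅⁅e,g⁆,⁅e,h⁆⁆ ∈ gam G 5 = 1`:
`⁅⁅e,g⁆,h⁆ ⁅g,⁅e,h⁆⁆ = 1`, and `⁅e,g⁆ = ⁅g,e⁆⁻¹`: `⁅g,⁅h,e⁆⁆ = ⁅h,⁅g,e⁆⁆`.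
Jacobi: `⁅⁅c,d⁆,e⁆⁅⁅d,e⁆,c⁆⁅⁅e,c⁆,d⁆ ∈ gam G 3` (apply `S_MREL` to `G ⧸ gam G 3`, metabelian since
`⁅gam G 1, gam G 1⁆ ≤ gam G 3`), then bilinear. 7th power: `⁅g,h⁆^7 = ⁅g^7,h⁆`. -/
def S_RELT : Prop := ∀ (G : Type) [Group G] (x : ℕ → G), D2 G ≤ Subgroup.center G →
  (∀ g : G, g ^ 7 ∈ Subgroup.center G) → gam G 5 = ⊥ → ∀ a b c d e : ℕ,
  T x b a c d e = (T x a b c d e)⁻¹ ∧ T x c d a b e = T x a b c d e ∧
  T x a b c d e * T x a b d e c * T x a b e c d = 1 ∧ (T x a b c d e) ^ 7 = 1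

/-- JOB LONE. A law is in `F'`: for a letter `k` let `φ_k` send `x_k` to the first generator and the
other letters to 1. `V ≤ F'`, so `verbal V F2 ≤ F2'`, hence the exponent sum of `k` in `w` is 0 (map to
the integers). All exponent sums 0 imply `w ∈ F'` (abelianization of a free group, e.g.
`FreeAbelianGroup`; or by induction/`FreeGroup.lift` into the abelianization). -/
def S_LONE : Prop := ∀ w : F, Law2 w → w ∈ gam F 1

/-! ## Combinatorial jobs -/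

/-- JOB SYM. Coefficient comparison. `s` is a list of terms `c · u` (c an integer, `u` in an index
type with colour content `μ u`, a multiset of at most 6 coloured letters). If `Σ c Π_{z ∈ μ u} v z = 0`
in `ZMod 7` for all `v` then `Σ c • Φ u = 0` for every `Φ` with values killed by 7 which depends only on
`μ u`. Proof: `P = Σ c X^{μ u}` in `MvPolynomial (Fin 3 × ℕ) (ZMod 7)` vanishes at all points and has
degree at most 6 in every variable, so `P = 0` (`MvPolynomial.eq_zero_of_eval_eq_zero`, after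
restriction to finitely many variables, e.g. `MvPolynomial.exists_finset_rename` or killCompl; or
induction on the number of variables); so the sum of the `c` over every fibre of `μ` is divisible by 7;
group the sum by fibres. -/
def S_SYM : Prop := ∀ (ι L : Type) [AddCommGroup L] (μ : ι → Multiset (Fin 3 × ℕ)) (Φ : ι → L),
  (∀ i j, μ i = μ j → Φ i = Φ j) → (∀ i, (7 : ℤ) • Φ i = 0) → ∀ s : List (ℤ × ι),
  (∀ t ∈ s, Multiset.card (μ t.2) ≤ 6) →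
  (∀ v : Fin 3 × ℕ → ZMod 7,
    (s.map fun t => (t.1 : ZMod 7) * ((μ t.2).map v).prod).sum = 0) →
  (s.map fun t => t.1 • Φ t.2).sum = 0

/-- `Φ(a, Z) = Σ_{z ∈ Z} e(a, z, Z - z)` -/
def PhiA {L : Type} [AddCommGroup L] (e : ℕ → ℕ → Multiset ℕ → L) (a : ℕ) (Z : Multiset ℕ) : L :=
  (Z.map fun z => e a z (Z.erase z)).sum

/-- JOB IDA. `Φ(a, b::Z) = e a b Z + Σ_{z ∈ Z} e a z (b :: (Z.erase z))` (for `z ∈ Z`,
`(b ::ₘ Z).erase z = b ::ₘ Z.erase z`), similarly `Φ(b, a::Z)`; by Jacobi and antisymmetry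
`e a z (b::Y) - e b z (a::Y) = e a b (z::Y)` and `z :: Z.erase z = Z`. -/
def S_IDA : Prop := ∀ (L : Type) [AddCommGroup L] (e : ℕ → ℕ → Multiset ℕ → L),
  (∀ a b Z, e b a Z = -e a b Z) →
  (∀ a b c Z, e a b (c ::ₘ Z) + e b c (a ::ₘ Z) + e c a (b ::ₘ Z) = 0) →
  ∀ a b Z, PhiA e a (b ::ₘ Z) - PhiA e b (a ::ₘ Z) = ((Multiset.card Z : ℤ) + 2) • e a b Z

/-- `Φ(a; b, c; d) = q a b c d + q a c b d` -/
def PhiB {L : Type} [AddCommGroup L] (q : ℕ → ℕ → ℕ → ℕ → L) (a b c d : ℕ) : L :=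
  q a b c d + q a c b d

/-- JOB IDB. Purely formal from the relations. (1) the invariance needed for `S_SYM`; (2) identity. -/
def S_IDB : Prop := ∀ (L : Type) [AddCommGroup L] (q : ℕ → ℕ → ℕ → ℕ → L),
  (∀ a b c d, q b a c d = -q a b c d ∧ q a b d c = -q a b c d ∧ q c d a b = -q a b c d) →
  (∀ a b c d a' b' c' d' : ℕ,
    ({((2 : Fin 3), a), (0, b), (0, c), (1, d)} : Multiset (Fin 3 × ℕ)) =
      {(2, a'), (0, b'), (0, c'), (1, d')} → PhiB q a b c d = PhiB q a' b' c' d') ∧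
  (∀ x1 x2 x3 x4 : ℕ,
    PhiB q x1 x2 x3 x4 - PhiB q x1 x2 x4 x3 - PhiB q x2 x1 x3 x4 + PhiB q x2 x1 x4 x3
      - PhiB q x3 x1 x4 x2 + PhiB q x4 x1 x3 x2 + PhiB q x3 x2 x4 x1 - PhiB q x4 x2 x3 x1
      = (8 : ℤ) • q x1 x2 x3 x4)

/-- sum of `t(z_i y1 | z_j y2 | z_k)` over the permutations `(i,j,k)` -/
def PhiC {L : Type} [AddCommGroup L] (t : ℕ → ℕ → ℕ → ℕ → ℕ → L) (y1 y2 z1 z2 z3 : ℕ) : L :=
  t z1 y1 z2 y2 z3 + t z1 y1 z3 y2 z2 + t z2 y1 z1 y2 z3 + t z2 y1 z3 y2 z1 +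
    t z3 y1 z1 y2 z2 + t z3 y1 z2 y2 z1

/-- JOB IDC. (1) invariance of `PhiC` in `{y1,y2}` (use the swap relation) and in `{z1,z2,z3}`;
(2) the identity (checked by computer: the coefficient is 12), formal from the three relations. -/
def S_IDC : Prop := ∀ (L : Type) [AddCommGroup L] (t : ℕ → ℕ → ℕ → ℕ → ℕ → L),
  (∀ a b c d e, t b a c d e = -t a b c d e ∧ t c d a b e = t a b c d e ∧
    t a b c d e + t a b d e c + t a b e c d = 0) →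
  (∀ y1 y2 z1 z2 z3 y1' y2' z1' z2' z3' : ℕ,
    ({((1 : Fin 3), y1), (1, y2), (0, z1), (0, z2), (0, z3)} : Multiset (Fin 3 × ℕ)) =
      {(1, y1'), (1, y2'), (0, z1'), (0, z2'), (0, z3')} →
      PhiC t y1 y2 z1 z2 z3 = PhiC t y1' y2' z1' z2' z3') ∧
  (∀ x1 x2 x3 x4 x5 : ℕ,
    PhiC t x2 x4 x1 x3 x5 - PhiC t x2 x3 x1 x4 x5 - PhiC t x1 x4 x2 x3 x5 +
      PhiC t x1 x3 x2 x4 x5 = (12 : ℤ) • t x1 x2 x3 x4 x5)

/-! ## Assembly -/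

/-- JOB STEPA (from `S_UNI`, `S_LEAD`, `S_FIL`, `S_EVA`, `S_GEN`, `S_RELA`, `S_SYM`, `S_IDA`).
Fix `n ≤ 3`, `w ∈ gam F (n+1)` with `MetLaw w`. Let `K = D2 F ⊔ (V ⊔ gam F (n+2))` (normal),
`P = F ⧸ K`, `x k` the class of `of k`. In `P`: `γ_{n+3}(P) = gam P (n+2) = ⊥`, `G' = gam P 1` is
commutative, 7th powers are central (`x^7 ∈ U`, `V ≤ K`). Let `f1 : gam F (n+1) → Additive (center P)`
(the image of `gam F (n+1)` is central), and for `v : Fin 3 × ℕ → ZMod 7` let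
`ρ_v = θ ∘ φ_v`, `φ_v (of k) = of 0 ^ (v (0,k)).val * of 1 ^ (v (1,k)).val`, `θ = lift ![A,B]` (pattern A),
`f_v : gam F (n+1) → ZMod 7`, `w ↦ (ρ_v w) 0 (n+2)`: additive since `ρ_v w ∈ 1 + N^(n+2)` (`S_FIL`).
All these homomorphisms kill `gam F (n+2)`. By `S_GEN n` the pair `(f1 w, (f_v w)_v)` is a sum of terms
`c (f1 (E y z Z), (f_v (E y z Z))_v)`, `Z.length = n`. `MetLaw w` gives `f_v w = 0`, so by `S_EVA`
`Σ c (v(1,y) v(0,z) - v(0,y) v(1,z)) Π_{Z} v(0,·) = 0` for all `v`. Put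
`e a b Z = f1 (E a b Z.toList)` if `card Z = n` and `0` otherwise; `S_RELA` gives the hypotheses of
`S_IDA` and that `7 • e = 0`. Apply `S_SYM` with `ι = ℕ × Multiset ℕ`,
`μ (a, Z) = (1,a) ::ₘ Z.map (fun z => (0,z))` (injective), `Φ = PhiA e` to the list of the terms
`(c, (y, z ::ₘ Z))`, `(-c, (z, y ::ₘ Z))`: so `0 = Σ c (PhiA e y (z::Z) - PhiA e z (y::Z))
= (n+2) Σ c e y z Z = (n+2) f1 w`; also `7 f1 w = 0`, so `f1 w = 0`, i.e. `w ∈ K`. -/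
def S_STEPA : Prop := ∀ n ≤ 3, ∀ w ∈ gam F (n + 1), MetLaw w → w ∈ D2 F ⊔ (V ⊔ gam F (n + 2))

/-- JOB STEPBC (from `S_UNI`, `S_LEAD`, `S_FIL`, `S_KSIX`, `S_LAWEV`, `S_EVT`, `S_EVQ`, `S_GENTWO`,
`S_RELQ`, `S_RELT`, `S_SYM`, `S_IDB`, `S_IDC`).
`P = F ⧸ V`: `D2 P` central (`⁅D2 F, ⊤⁆ ≤ V`), 7th powers central, `gam P 5 = ⊥` (`gam F 5 = ⁅gam F 4, ⊤⁆ ≤ V`).
`f1 : D2 F → Additive (center P)`. For `v : Fin 3 × ℕ → ZMod 7` let
`φ_v (of k) = of 0 ^ (v (0,k)).val * of 1 ^ (v (1,k)).val * ⁅of 0, of 1⁆ ^ (v (2,k)).val`, `v0` = `v` with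
colour 2 set to 0, `f_v w = (θ (φ_v w)) 0 5` for `w ∈ D2 F`, `θ = lift ![A,B]` for the pattern C:
additive on `D2 F` since `θ (φ_v (D2 F)) ⊂ 1 + N^5` (`S_KSIX`), and it kills `V ∩ D2 F`. Let `w ∈ D2 F` be
a law: `f_v w = 0` for all `v` (`S_LAWEV`).
By `S_GENTWO`, `(f1 w, (f_v w)_v) = Σ_j c_j (...)(Q_j) + Σ_k c'_k (...)(T_k)`.
(B) `f_v (T_k) = f_{v0} (T_k)` (`S_EVT`: only linear parts matter), so subtracting,
`Σ_j c_j (f_v (Q_j) - f_{v0} (Q_j)) = 0`, and by `S_EVQ` with `n = v(0,·)`, `m = v(1,·)`, `r = v(2,·)`: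
`Σ c (r1n2n3m4 - r1n2m3n4 - n1r2n3m4 + n1r2m3n4 - n1m2r3n4 + n1m2n3r4 + m1n2r3n4 - m1n2n3r4) = 0`.
`S_SYM` with `Φ = PhiB q` (`q a b c d = f1 (Q a b c d)`), eight terms for each `j` (content
`{(2,·),(0,·),(0,·),(1,·)}`), and `S_IDB` give `8 Σ c_j f1 (Q_j) = 0`, so `Σ c_j f1 (Q_j) = 0`
(7 kills it, `S_RELQ`). So `w1 = Π Q_j^{c_j} ∈ V` and `Σ c_j f_v (Q_j) = f_v w1 = 0`.
(C) So `Σ_k c'_k f_v (T_k) = 0`; by `S_EVT`
`Σ c' (n1m2 - m1n2)(n3m4 - m3n4) n5 = 0`; `S_SYM` with `Φ = PhiC t`, four terms for each `k`: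
`(c'; y = x2,x4; z = x1,x3,x5)`, `(-c'; x2,x3; x1,x4,x5)`, `(-c'; x1,x4; x2,x3,x5)`,
`(c'; x1,x3; x2,x4,x5)`, and `S_IDC` give `12 Σ c'_k f1 (T_k) = 0`, so `f1 w = 0`, `w ∈ V`. -/
def S_STEPBC : Prop := ∀ w ∈ D2 F, Law2 w → w ∈ V

/-- JOB MAIN (from `S_UNI`, `S_KSIX`, `S_LAWEV`, `S_MET`, `S_LONE`, `S_STEPA`, `S_STEPBC`).
`w` a law. `w ∈ gam F 1` (`S_LONE`). Elements of `V` are laws (definition of `verbal`), laws satisfy
`MetLaw` (`S_LAWEV`), elements of `D2 F` satisfy `MetLaw` (`S_MET`), and `MetLaw` is closed under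
products and inverses. So by `S_STEPA` for `n = 0, 1, 2, 3` (write `w = k g`, `k ∈ D2 F ⊔ V`,
`g ∈ gam F (n+2)`, `MetLaw g`): `w ∈ D2 F ⊔ (V ⊔ gam F 5)`, and `gam F 5 ≤ V`. So `w = h v` with
`h ∈ D2 F`, `v ∈ V`; `h` is a law, so `h ∈ V` by `S_STEPBC`. -/
def S_MAIN : Prop := ∀ w : F, Law2 w → w ∈ V

/-- JOB NEG (from `S_UNI`, `S_KFIVE`, `S_LCS`, `S_GEN`-like argument in `F2`). The word
`w = ⁅⁅x0,x1⁆,⁅x2,x3⁆⁆`. (1) For every `φ : F →* F2`, `φ w ∈ D2 F2 ≤ gam F2 4`: `F2' ` is generated by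
`c = ⁅of 0, of 1⁆` modulo `gam F2 2` (the commutator is bilinear modulo `gam F2 2`), so
`⁅c^i g, c^j h⁆ ∈ gam F2 4` for `g, h ∈ gam F2 2` (`⁅gam F2 1, gam F2 2⁆ ≤ gam F2 4`). And
`gam F2 4 ≤ verbal (gam F 4 ⊔ V) F2` since there is a surjective `F →* F2`.
(2) `w ∉ gam F 4 ⊔ V` by `S_KFIVE` with `ρ (of k) = 1 + E_{k,k+1}` for `k ≤ 3` and 1 for `k > 3`:
`ρ w = 1 + E_{04} ≠ 1` (`S_LEAD` or a direct computation with `decide`). -/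
def S_NEG : Prop := ∃ w : F, (∀ φ : F →* F2, φ w ∈ verbal (gam F 4 ⊔ V) F2) ∧ w ∉ gam F 4 ⊔ V

end Pool.Agent.Q266.VG
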